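import Pool.Agent.helper87.FM.Spec

set_option autoImplicit false

namespace Pool.Agent.FM

open Polynomial Matrix Pool.Agent.helper42.NS Pool.Agent.FS

theorem SPE_hered {Q : ∀ t : ℕ, Matrix (Fin t) (Fin t) ℤ → Prop} :
    ∀ {t : ℕ} {H : Matrix (Fin t) (Fin t) ℤ}, Hered Q t H → Q t H
  | 0, _, h => h
  | _ + 1, _, h => h.1

theorem SPE_exp (a : ℕ) (ha : 20 ≤ a) : a * (55 * a + 53) ≤ 2 ^ (10 * a - 1) := by
  have h1 : a ≤ 2 ^ a := Nat.lt_two_pow_self.le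
  calc a * (55 * a + 53) ≤ a * (128 * a) := Nat.mul_le_mul_left a (by omega)
    _ = 128 * (a * a) := by ring
    _ ≤ 128 * (2 ^ a * 2 ^ a) := Nat.mul_le_mul_left 128 (Nat.mul_le_mul h1 h1)
    _ = 2 ^ (7 + (a + a)) := by rw [pow_add, pow_add]; norm_num
    _ ≤ 2 ^ (10 * a - 1) := Nat.pow_le_pow_right (by norm_num) (by omega)

theorem SPE (h1 : POE_stmt) (h2 : PS2_stmt) : SPE_stmt := by
  intro a m P ha hm1 hm2 hqa
  have hq0 : (0 : ℝ) ≤ (qP P : ℝ) := Nat.cast_nonneg _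
  have hqa' : (qP P : ℝ) ≤ 2 ^ a := by exact_mod_cast hqa.le
  have hcrk : ∀ (t : ℕ) (H : Matrix (Fin t) (Fin t) ℤ), Hered (W1 a) t H →
      crk P H ≤ 55 * a + 53 := by
    intro t H hH
    have h3 := ((SPE_hered hH).1 P).2
    omega
  have hpow : 2 ^ (10 * a) = 2 ^ (10 * a - 1) + 2 ^ (10 * a - 1) := by
    have h3 : 2 ^ (10 * a) = 2 * 2 ^ (10 * a - 1) := by
      rw [← pow_succ']
      congr 1
      omega
    omega
  have hmt : 2 ^ (10 * a - 1) ≤ m - 2 ^ (10 * a - 1) := by omega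
  have key := h1 (W1 a) (fun t H => (qP P : ℝ) ^ crk P H) (2 ^ (10 * a - 1)) m
    ((2 ^ a) ^ (55 * a + 53)) ((qP P : ℝ) + 1)
    (by omega) (by linarith) (by positivity)
    (fun t H => by positivity)
    (by
      intro H _ hH
      calc (qP P : ℝ) ^ crk P H ≤ (2 ^ a) ^ crk P H := pow_le_pow_left₀ hq0 hqa' _
        _ ≤ (2 ^ a) ^ (55 * a + 53) :=
          pow_le_pow_right₀ (one_le_pow₀ (by norm_num)) (hcrk _ H hH))
    (by
      intro t ht0 _ H hG hH s _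
      have h3 := h2 a t P H ha hG.2.2 ((SPE_hered hH).2 ht0).2 hqa (hcrk t H hH)
      calc (∑ b ∈ s, (qP P : ℝ) ^ crk P (bord H (ind b))) ≤
          ∑ b : Fin t → Bool, (qP P : ℝ) ^ crk P (bord H (ind b)) :=
            Finset.sum_le_sum_of_subset_of_nonneg (Finset.subset_univ s)
              (fun b _ _ => by positivity)
        _ ≤ 2 ^ t * ((qP P : ℝ) ^ crk P H / 2 + qP P + 1) := h3
        _ = 2 ^ t * ((qP P : ℝ) ^ crk P H / 2 + (qP P + 1)) := by ring)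
  have hX : ((2 : ℝ) ^ a) ^ (55 * a + 53) / 2 ^ (m - 2 ^ (10 * a - 1)) ≤ 1 := by
    rw [← pow_mul, div_le_one (by positivity)]
    exact pow_le_pow_right₀ (by norm_num) ((SPE_exp a ha).trans hmt)
  refine key.trans ?_
  refine mul_le_mul_of_nonneg_left ?_ (by positivity)
  linarith

end Pool.Agent.FM
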